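import Pool.Agent.H164.GW.Main

/-!
# `2 k + 1` `k`-th powers suffice for generic coefficients

Let `k ≥ 2` and `s ≥ 2 k + 1`. For almost all vectors `(θ_1, ..., θ_s)` of positive real numbers every
large real number `t` is at distance smaller than `t ^ (- 1 / (40 k))` from a number
`θ_1 x_1 ^ k + ... + θ_s x_s ^ k` with positive integers `x_i`; in particular every large integer is
the integer part of such a number. (The problem is about the vector `(1, ..., 1)`.)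
-/

set_option autoImplicit false

open MeasureTheory

namespace Pool.Agent.Results.MP_efcac8_nt.GenericCoefficients

theorem result (k s : ℕ) (hk : 2 ≤ k) (hs : 2 * k + 1 ≤ s) :
    ∀ᵐ θ : Fin s → ℝ, (∀ i, 0 < θ i) →
      (∃ t₀ : ℝ, ∀ t : ℝ, t₀ ≤ t → ∃ x : Fin s → ℕ, (∀ i, 0 < x i) ∧
        |∑ i, θ i * (x i : ℝ) ^ k - t| < t ^ (-(1 / (40 * k : ℝ)))) ∧
      ∃ N₀ : ℕ, ∀ N : ℕ, N₀ ≤ N → ∃ x : Fin s → ℕ, (∀ i, 0 < x i) ∧
        ⌊∑ i, θ i * (x i : ℝ) ^ k⌋₊ = N := by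
  refine (Pool.Agent.H164.GW.generic hk hs).mono fun θ hθ hpos => ?_
  have h := hθ hpos
  refine ⟨h, ?_⟩
  obtain ⟨t₀, ht₀⟩ := h
  have hk0 : (0 : ℝ) < k := by exact_mod_cast (by omega : 0 < k)
  have hexp : (0 : ℝ) < 1 / (40 * k : ℝ) := by positivity
  -- the distance is smaller than one half for large `t`
  have hlim := (tendsto_rpow_neg_atTop hexp).eventually (gt_mem_nhds (by norm_num : (0 : ℝ) < 1 / 2))
  obtain ⟨t₁, ht₁⟩ := Filter.eventually_atTop.1 hlim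
  obtain ⟨N₀, hN₀⟩ := exists_nat_ge (max t₀ t₁)
  refine ⟨N₀, fun N hN => ?_⟩
  have hN' : (N₀ : ℝ) ≤ N := by exact_mod_cast hN
  have h1 : t₀ ≤ (N : ℝ) + 1 / 2 := by
    have := le_max_left t₀ t₁
    linarith
  have h2 : t₁ ≤ (N : ℝ) + 1 / 2 := by
    have := le_max_right t₀ t₁
    linarith
  obtain ⟨x, hx1, hx2⟩ := ht₀ _ h1
  refine ⟨x, hx1, ?_⟩
  have h3 := abs_lt.1 (hx2.trans (ht₁ _ h2))
  rw [Nat.floor_eq_iff (by linarith [h3.1, Nat.cast_nonneg (α := ℝ) N])]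
  constructor <;> linarith [h3.1, h3.2]

end Pool.Agent.Results.MP_efcac8_nt.GenericCoefficients
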